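import Mathlib

/-! # Definitions: generalized Baum–Sweet sequences, their zero positions, regular sequences -/

set_option autoImplicit false

namespace Pool.Agent.R487.BS

/-- Every block of zeros of `n` (in binary, without leading zeros) has length divisible by `r`.
A block of zeros is a maximal run of consecutive digits `0`; here it occupies the positions
`i, i+1, …, i+l-1`, it is followed (towards the higher positions) by a digit `1` at position `i+l`
(a block of zeros always ends there, as there are no leading zeros), and it is maximal on the other
side: `i = 0`, or the digit at position `i-1` is `1`. (For `l = 0` the condition says nothing, and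
for `n = 0` there is no block, so the condition holds.) -/
def ZeroBlocks (r n : ℕ) : Prop :=
  ∀ i l : ℕ, (∀ t : ℕ, t < l → n.testBit (i + t) = false) → n.testBit (i + l) = true →
    (i = 0 ∨ n.testBit (i - 1) = true) → r ∣ l

open Classical in
/-- The generalized Baum–Sweet sequence `b^{(r)}`: `b r n = 1` if every block of zeros of `n` has
length a multiple of `r`, and `b r n = 0` otherwise; `b r 0 = 1`. For `r = 2` this is the Baum–Sweet
sequence. -/
noncomputable def b (r n : ℕ) : ℕ := if ZeroBlocks r n then 1 else 0

/-- `h^{(r)}`: the strictly increasing enumeration (starting with index `0`) of the zero positions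
`{m : b r m = 0}`. -/
noncomputable def h (r : ℕ) (n : ℕ) : ℕ := Nat.nth (fun m => b r m = 0) n

/-- The `k`-kernel of an integer sequence `u`: the set of the sequences `n ↦ u (k^i n + j)` with
`i ≥ 0` and `0 ≤ j < k^i`. -/
def kernel (k : ℕ) (u : ℕ → ℤ) : Set (ℕ → ℤ) :=
  {v | ∃ i j : ℕ, j < k ^ i ∧ v = fun n => u (k ^ i * n + j)}

/-- `u` is `k`-regular: the `ℤ`-module generated by its `k`-kernel is finitely generated. -/
def IsRegular (k : ℕ) (u : ℕ → ℤ) : Prop := (Submodule.span ℤ (kernel k u)).FG

end Pool.Agent.R487.BS
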