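import Mathlib
import Pool.Agent.R487.BSDefs

/-! # Regular sequences with bounded differences: scale invariance of the set of jumps -/

set_option autoImplicit false

namespace Pool.Agent.R487.BS

open Finset

/-- reduction modulo `9` of an integer sequence -/
def red : (ℕ → ℤ) →+ (ℕ → ZMod 9) where
  toFun v := fun n => ((v n : ℤ) : ZMod 9)
  map_zero' := by funext n; simp
  map_add' := by intro v w; funext n; simp

theorem red_apply (v : ℕ → ℤ) (n : ℕ) : red v n = ((v n : ℤ) : ZMod 9) := rfl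

/-- modulo `9`, the kernel of a regular sequence is finite -/
theorem finite_red_kernel {k : ℕ} {u : ℕ → ℤ} (hu : IsRegular k u) :
    (red '' (kernel k u)).Finite := by
  obtain ⟨s, hs⟩ := hu
  set T : Submodule (ZMod 9) (ℕ → ZMod 9) := Submodule.span (ZMod 9) (red '' (s : Set (ℕ → ℤ))) with hT
  have hfg : T.FG := Submodule.fg_span (s.finite_toSet.image _)
  have hfin : Module.Finite (ZMod 9) T := Module.Finite.iff_fg.mpr hfg
  have hfinT : Finite T := Module.finite_of_finite (ZMod 9)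
  apply Set.Finite.subset (Set.toFinite (T : Set (ℕ → ZMod 9)))
  rintro _ ⟨v, hv, rfl⟩
  have hv2 : v ∈ Submodule.span ℤ (s : Set (ℕ → ℤ)) := by
    rw [hs]; exact Submodule.subset_span hv
  refine Submodule.span_induction ?_ ?_ ?_ ?_ hv2
  · intro x hx
    exact Submodule.subset_span ⟨x, hx, rfl⟩
  · rw [map_zero]; exact T.zero_mem
  · intro x y _ _ hx hy
    rw [map_add]; exact T.add_mem hx hy
  · intro a x _ hx
    have : red (a • x) = (a : ZMod 9) • red x := by
      funext n
      simp [red_apply]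
    rw [this]
    exact T.smul_mem _ hx

/-- the kernel of the difference sequence of a regular sequence, if it takes values in `[1,8]`, is
finite -/
theorem finite_kernel_diff {k : ℕ} {u : ℕ → ℤ} (hk : 1 ≤ k) (hu : IsRegular k u)
    (hb : ∀ n, 1 ≤ u (n + 1) - u n ∧ u (n + 1) - u n ≤ 8) :
    (kernel k (fun n => u (n + 1) - u n)).Finite := by
  set A := red '' (kernel k u) with hA
  have hAf : A.Finite := finite_red_kernel hu
  set B := (fun v : ℕ → ZMod 9 => fun n => v (n + 1)) '' A with hB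
  have hBf : B.Finite := hAf.image _
  have hC : (Set.image2 (fun v w : ℕ → ZMod 9 => v - w) (A ∪ B) A).Finite :=
    Set.Finite.image2 _ (hAf.union hBf) hAf
  apply Set.Finite.of_finite_image (f := red)
  · apply hC.subset
    rintro _ ⟨v, ⟨i, j, hj, rfl⟩, rfl⟩
    have hlast : red (fun n => u (k ^ i * n + j)) ∈ A := ⟨_, ⟨i, j, hj, rfl⟩, rfl⟩
    rcases Nat.lt_or_ge (j + 1) (k ^ i) with h1 | h1
    · refine ⟨red (fun n => u (k ^ i * n + (j + 1))), Or.inl ⟨_, ⟨i, j + 1, h1, rfl⟩, rfl⟩,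
        red (fun n => u (k ^ i * n + j)), hlast, ?_⟩
      funext n
      simp only [Pi.sub_apply, red_apply]
      push_cast
      rw [add_assoc]
    · have h2 : j + 1 = k ^ i := by omega
      refine ⟨fun n => red (fun n => u (k ^ i * n + 0)) (n + 1),
        Or.inr ⟨_, ⟨_, ⟨i, 0, Nat.pow_pos hk, rfl⟩, rfl⟩, rfl⟩,
        red (fun n => u (k ^ i * n + j)), hlast, ?_⟩
      funext n
      simp only [Pi.sub_apply, red_apply]
      push_cast
      congr 3
      rw [add_assoc, h2]; ring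
  · rintro v ⟨i, j, hj, rfl⟩ w ⟨i', j', hj', rfl⟩ hvw
    funext n
    have h1 := congrFun hvw n
    rw [red_apply, red_apply] at h1
    have h2 := hb (k ^ i * n + j)
    have h3 := hb (k ^ i' * n + j')
    rw [ZMod.intCast_eq_intCast_iff] at h1
    have h4 := h1.dvd
    simp only at h4 ⊢
    obtain ⟨c, hc⟩ := h4
    push_cast at hc
    omega

/-- the set of kernel elements of level `i` -/
def level (k : ℕ) (d : ℕ → ℤ) (i : ℕ) : Set (ℕ → ℤ) :=
  {v | ∃ j : ℕ, j < k ^ i ∧ v = fun n => d (k ^ i * n + j)}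

theorem level_succ (k : ℕ) (hk : 1 ≤ k) (d : ℕ → ℤ) (i : ℕ) :
    level k d (i + 1) = {v | ∃ w ∈ level k d i, ∃ a : ℕ, a < k ∧ v = fun n => w (k * n + a)} := by
  ext v
  constructor
  · rintro ⟨j, hj, rfl⟩
    have hpos : 0 < k ^ i := Nat.pow_pos hk
    refine ⟨_, ⟨j % k ^ i, Nat.mod_lt _ hpos, rfl⟩, j / k ^ i, ?_, ?_⟩
    · rw [Nat.div_lt_iff_lt_mul hpos, ← pow_succ']; exact hj
    · funext n
      congr 1
      have := Nat.div_add_mod j (k ^ i)
      calc k ^ (i + 1) * n + j = k ^ (i + 1) * n + (k ^ i * (j / k ^ i) + j % k ^ i) := by rw [this]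
        _ = k ^ i * (k * n + j / k ^ i) + j % k ^ i := by ring
  · rintro ⟨w, ⟨j, hj, rfl⟩, a, ha, rfl⟩
    refine ⟨k ^ i * a + j, ?_, ?_⟩
    · calc k ^ i * a + j < k ^ i * a + k ^ i := by omega
        _ = k ^ i * (a + 1) := by ring
        _ ≤ k ^ i * k := Nat.mul_le_mul_left _ ha
        _ = k ^ (i + 1) := by ring
    · funext n
      change d (k ^ i * (k * n + a) + j) = d (k ^ (i + 1) * n + (k ^ i * a + j))
      congr 1
      ring

/-- scale invariance: there are `i` and `P ≥ 1` such that whenever the interval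
`[w k^i, (w+1) k^i)` contains a point where `d ≠ 1`, so does `[w k^(i+tP), (w+1) k^(i+tP))`. -/
theorem scale {k : ℕ} (hk : 1 ≤ k) {d : ℕ → ℤ} (hd : (kernel k d).Finite) :
    ∃ i P : ℕ, 1 ≤ P ∧ ∀ w t : ℕ, (∃ c : ℕ, c < k ^ i ∧ d (k ^ i * w + c) ≠ 1) →
      ∃ c : ℕ, c < k ^ (i + t * P) ∧ d (k ^ (i + t * P) * w + c) ≠ 1 := by
  have hsub : ∀ i, level k d i ⊆ kernel k d := by
    rintro i v ⟨j, hj, rfl⟩
    exact ⟨i, j, hj, rfl⟩
  have hfin : Finite (Set.powerset (kernel k d)) := (hd.powerset).to_subtype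
  obtain ⟨i₀, i₁, hne, heq⟩ := Finite.exists_ne_map_eq_of_infinite
    (fun i : ℕ => (⟨level k d i, hsub i⟩ : Set.powerset (kernel k d)))
  have heq' : level k d i₀ = level k d i₁ := congrArg Subtype.val heq
  -- order them
  wlog hlt : i₀ < i₁ generalizing i₀ i₁
  · exact this i₁ i₀ hne.symm heq.symm heq'.symm (by omega)
  refine ⟨i₀, i₁ - i₀, by omega, ?_⟩
  have hshift : ∀ t, level k d (i₀ + t) = level k d (i₁ + t) := by
    intro t
    induction t with
    | zero => exact heq'
    | succ t ih => rw [← add_assoc, ← add_assoc, level_succ k hk, level_succ k hk, ih]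
  have hper : ∀ t, level k d (i₀ + t * (i₁ - i₀)) = level k d i₀ := by
    intro t
    induction t with
    | zero => simp
    | succ t ih =>
      have e1 : i₀ + (t + 1) * (i₁ - i₀) = i₁ + t * (i₁ - i₀) := by
        rw [Nat.succ_mul]; omega
      rw [e1, ← hshift, ih]
  rintro w t ⟨c, hc, hdc⟩
  have h1 : (fun n => d (k ^ i₀ * n + c)) ∈ level k d (i₀ + t * (i₁ - i₀)) := by
    rw [hper]; exact ⟨c, hc, rfl⟩
  obtain ⟨c', hc', h2⟩ := h1
  have h3 : d (k ^ i₀ * w + c) = d (k ^ (i₀ + t * (i₁ - i₀)) * w + c') := congrFun h2 w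
  exact ⟨c', hc', by rw [← h3]; exact hdc⟩

end Pool.Agent.R487.BS
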