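import Mathlib
import Pool.Agent.R487.BSReg

/-! # Structure of the zero positions of the generalized Baum–Sweet sequences -/

set_option autoImplicit false

namespace Pool.Agent.R487.BS

open Finset

theorem b_eq_zero {r m : ℕ} : b r m = 0 ↔ ¬ ZeroBlocks r m := by
  unfold b; split_ifs with h <;> simp [h]

/-- a block `101` forces `b = 0` -/
theorem zb5 {r : ℕ} (hr : 2 ≤ r) {m j : ℕ} (h : (m / 2 ^ j) % 8 = 5) : b r m = 0 := by
  rw [b_eq_zero]
  intro hz
  have hbit : ∀ i, i < 3 → m.testBit (j + i) = (5 : ℕ).testBit i := by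
    intro i hi
    rw [← h, show (8 : ℕ) = 2 ^ 3 by norm_num, Nat.testBit_mod_two_pow, Nat.testBit_div_two_pow,
      add_comm i j]
    simp [hi]
  have h0 := hbit 0 (by norm_num)
  have h1 := hbit 1 (by norm_num)
  have h2 := hbit 2 (by norm_num)
  have := hz (j + 1) 1 (by
    intro t ht
    have : t = 0 := by omega
    subst this
    rw [add_zero, h1]; decide) (by rw [show j + 1 + 1 = j + 2 by ring, h2]; decide)
    (Or.inr (by rw [Nat.add_sub_cancel]; rw [add_zero] at h0; rw [h0]; decide))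
  have := Nat.le_of_dvd (by norm_num) this
  omega

theorem b_ones (r i : ℕ) : b r (2 ^ i - 1) ≠ 0 := by
  rw [Ne, b_eq_zero, not_not]
  intro i' l h1 h2 _
  rw [Nat.testBit_two_pow_sub_one] at h2
  have h3 : i' + l < i := by simpa using h2
  rcases Nat.eq_zero_or_pos l with h | h
  · rw [h]; exact dvd_zero r
  · have := h1 0 h
    rw [Nat.testBit_two_pow_sub_one] at this
    simp only [add_zero, decide_eq_false_iff_not] at this
    omega

theorem testBit_six (J j : ℕ) : (6 * 2 ^ J).testBit j = decide (j = J + 1 ∨ j = J + 2) := by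
  have h := Nat.testBit_two_pow_mul_add 6 (Nat.two_pow_pos J) j
  rw [add_zero, mul_comm] at h
  rw [h]
  split_ifs with h1
  · rw [Nat.zero_testBit, eq_comm, decide_eq_false_iff_not]; omega
  · obtain ⟨e, rfl⟩ : ∃ e, j = J + e := ⟨j - J, by omega⟩
    rw [Nat.add_sub_cancel_left]
    rcases Nat.lt_or_ge e 3 with h2 | h2
    · interval_cases e
      · simp
      · simp; decide
      · simp; decide
    · rw [Nat.testBit_lt_two_pow (show 6 < 2 ^ e from
        lt_of_lt_of_le (by norm_num : 6 < 2 ^ 3) (Nat.pow_le_pow_right (by norm_num) h2)),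
        eq_comm, decide_eq_false_iff_not]
      omega

theorem b_six {r J : ℕ} (h : r ∣ J + 1) : b r (6 * 2 ^ J) ≠ 0 := by
  rw [Ne, b_eq_zero, not_not]
  intro i l h1 h2 h3
  rw [testBit_six, decide_eq_true_eq] at h2
  rcases h3 with h3 | h3
  · subst h3
    rcases h2 with h2 | h2
    · rw [show l = J + 1 by omega]; exact h
    · have := h1 (J + 1) (by omega)
      rw [testBit_six, decide_eq_false_iff_not] at this
      exact absurd (Or.inl (by omega)) this
  · rw [testBit_six, decide_eq_true_eq] at h3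
    have : l = 0 := by omega
    rw [this]; exact dvd_zero r

/-- number of zeros below `x` -/
noncomputable def N0 (r x : ℕ) : ℕ := Nat.count (fun m => b r m = 0) x

/-- number of ones below `x` -/
noncomputable def L (r x : ℕ) : ℕ := x - N0 r x

theorem N0_le (r x : ℕ) : N0 r x ≤ x := Nat.count_le _

theorem N0_add_L (r x : ℕ) : N0 r x + L r x = x := by
  unfold L; have := N0_le r x; omega

theorem L_succ_zero {r m : ℕ} (h : b r m = 0) : L r (m + 1) = L r m := by
  have h1 : N0 r (m + 1) = N0 r m + 1 := by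
    unfold N0; rw [Nat.count_succ, if_pos h]
  have := N0_add_L r m
  have := N0_add_L r (m + 1)
  omega

theorem L_succ_one {r m : ℕ} (h : b r m ≠ 0) : L r (m + 1) = L r m + 1 := by
  have h1 : N0 r (m + 1) = N0 r m := by
    unfold N0; rw [Nat.count_succ, if_neg h, add_zero]
  have := N0_add_L r m
  have := N0_add_L r (m + 1)
  omega

theorem L_mono (r : ℕ) : Monotone (L r) := by
  apply monotone_nat_of_le_succ
  intro m
  by_cases h : b r m = 0
  · rw [L_succ_zero h]
  · rw [L_succ_one h]; omega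

theorem L_zero (r : ℕ) : L r 0 = 0 := by
  have := N0_add_L r 0; omega

/-- `L` is constant on the gap -/
theorem L_gap {r : ℕ} (hr : 2 ≤ r) (J q : ℕ) (hq : q ≤ 2 ^ J) :
    L r (5 * 2 ^ J + q) = L r (5 * 2 ^ J) := by
  induction q with
  | zero => rfl
  | succ q ih =>
    rw [← add_assoc, L_succ_zero, ih (by omega)]
    apply zb5 hr (j := J)
    have : (5 * 2 ^ J + q) / 2 ^ J = 5 := by
      rw [add_comm, Nat.add_mul_div_right _ _ (Nat.two_pow_pos J),
        Nat.div_eq_of_lt (by omega), zero_add]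
    rw [this]

theorem b_gap {r : ℕ} (hr : 2 ≤ r) (J q : ℕ) (hq : q < 2 ^ J) : b r (5 * 2 ^ J + q) = 0 := by
  apply zb5 hr (j := J)
  have : (5 * 2 ^ J + q) / 2 ^ J = 5 := by
    rw [add_comm, Nat.add_mul_div_right _ _ (Nat.two_pow_pos J),
      Nat.div_eq_of_lt (by omega), zero_add]
  rw [this]

theorem L_ge (r i : ℕ) : i ≤ L r (2 ^ i) := by
  induction i with
  | zero => omega
  | succ i ih =>
    have h1 := L_succ_one (b_ones r (i + 1))
    have hp : 1 ≤ 2 ^ i := Nat.one_le_two_pow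
    have h2 : 2 ^ (i + 1) = 2 * 2 ^ i := by ring
    rw [show 2 ^ (i + 1) - 1 + 1 = 2 ^ (i + 1) by omega] at h1
    have h3 := L_mono r (show 2 ^ i ≤ 2 ^ (i + 1) - 1 by omega)
    omega

open Classical in
/-- the numbers below `8^n` without base-`8` digit `5` -/
theorem card_T (n : ℕ) :
    ((range (8 ^ n)).filter (fun m => ∀ j, (m / 8 ^ j) % 8 ≠ 5)).card ≤ 7 ^ n := by
  induction n with
  | zero =>
    refine (Finset.card_filter_le _ _).trans ?_
    simp
  | succ n ih =>
    have hinj : ((range (8 ^ (n + 1))).filter (fun m => ∀ j, (m / 8 ^ j) % 8 ≠ 5)).card ≤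
        (((range (8 ^ n)).filter (fun m => ∀ j, (m / 8 ^ j) % 8 ≠ 5)) ×ˢ
          ((range 8).erase 5)).card := by
      apply Finset.card_le_card_of_injOn (fun m => (m / 8, m % 8))
      · intro m hm
        rw [Finset.coe_filter, Set.mem_ofPred_eq, Finset.mem_range] at hm
        rw [Finset.mem_coe, Finset.mem_product, Finset.mem_filter, Finset.mem_range,
          Finset.mem_erase, Finset.mem_range]
        refine ⟨⟨?_, ?_⟩, ?_, Nat.mod_lt _ (by norm_num)⟩
        · rw [Nat.div_lt_iff_lt_mul (by norm_num), ← pow_succ]; exact hm.1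
        · intro j
          have := hm.2 (j + 1)
          rwa [pow_succ', ← Nat.div_div_eq_div_mul] at this
        · have := hm.2 0
          simpa using this
      · intro m _ m' _ h
        simp only [Prod.mk.injEq] at h
        omega
    refine hinj.trans ?_
    rw [Finset.card_product, pow_succ]
    exact Nat.mul_le_mul ih (by decide)

theorem L_eq_card (r x : ℕ) : L r x = ((range x).filter (fun m => b r m ≠ 0)).card := by
  induction x with
  | zero => rw [L_zero]; simp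
  | succ x ih =>
    rw [Finset.range_add_one, Finset.filter_insert]
    split_ifs with h
    · rw [Finset.card_insert_of_notMem (by simp), L_succ_one h, ih]
    · rw [L_succ_zero (not_not.mp h), ih]

open Classical in
theorem L_pow {r : ℕ} (hr : 2 ≤ r) (n : ℕ) : L r (8 ^ n) ≤ 7 ^ n := by
  rw [L_eq_card]
  refine le_trans (Finset.card_le_card ?_) (card_T n)
  intro m hm
  rw [Finset.mem_filter] at hm ⊢
  refine ⟨hm.1, fun j h => hm.2 ?_⟩
  apply zb5 hr (j := 3 * j)
  rw [pow_mul]; exact h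

/-- `L(x) = o(x)` -/
theorem L_little {r : ℕ} (hr : 2 ≤ r) (B : ℕ) : ∃ X : ℕ, ∀ x, X ≤ x → B * L r x ≤ x := by
  -- `7^(n+1) B ≤ 8^n` for large `n`
  have hlim : ∃ n₀ : ℕ, ∀ n, n₀ ≤ n → B * 7 ^ (n + 1) ≤ 8 ^ n := by
    obtain ⟨n₀, hn₀⟩ : ∃ n₀ : ℕ, ((7 : ℝ) / 8) ^ n₀ < 1 / (7 * (B + 1)) :=
      exists_pow_lt_of_lt_one (by positivity) (by norm_num)
    refine ⟨n₀, fun n hn => ?_⟩
    have h1 : ((7 : ℝ) / 8) ^ n ≤ ((7 : ℝ) / 8) ^ n₀ :=
      pow_le_pow_of_le_one (by norm_num) (by norm_num) hn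
    have h2 : ((7 : ℝ) / 8) ^ n ≤ 1 / (7 * (B + 1)) := h1.trans hn₀.le
    rw [div_pow, div_le_div_iff₀ (by positivity) (by positivity)] at h2
    have h3 : (B : ℝ) * 7 ^ (n + 1) ≤ 8 ^ n := by
      have h5 : (0 : ℝ) ≤ 7 ^ n := by positivity
      calc (B : ℝ) * 7 ^ (n + 1) = 7 ^ n * (7 * B) := by ring
        _ ≤ 7 ^ n * (7 * (B + 1)) := by
          apply mul_le_mul_of_nonneg_left _ h5; linarith
        _ ≤ 8 ^ n := by linarith
    exact_mod_cast h3
  obtain ⟨n₀, hn₀⟩ := hlim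
  refine ⟨8 ^ n₀, fun x hx => ?_⟩
  have hx0 : x ≠ 0 := by
    have : 0 < 8 ^ n₀ := by positivity
    omega
  set n := Nat.log 8 x with hn
  have h1 : 8 ^ n ≤ x := Nat.pow_log_le_self 8 hx0
  have h2 : x < 8 ^ (n + 1) := Nat.lt_pow_succ_log_self (by norm_num) x
  have h3 : n₀ ≤ n := by
    have h4 : 8 ^ n₀ < 8 ^ (n + 1) := lt_of_le_of_lt hx h2
    have := (Nat.pow_lt_pow_iff_right (by norm_num : 1 < 8)).mp h4
    omega
  calc B * L r x ≤ B * L r (8 ^ (n + 1)) := Nat.mul_le_mul_left _ (L_mono r h2.le)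
    _ ≤ B * 7 ^ (n + 1) := Nat.mul_le_mul_left _ (L_pow hr _)
    _ ≤ 8 ^ n := hn₀ n h3
    _ ≤ x := h1

theorem infinite_zero {r : ℕ} (hr : 2 ≤ r) : (Set.ofPred (fun m => b r m = 0)).Infinite := by
  apply Set.infinite_of_injective_forall_mem (f := fun a : ℕ => 8 * a + 5)
  · intro a a' h; simp only at h; omega
  · intro a
    change b r (8 * a + 5) = 0
    apply zb5 hr (j := 0)
    omega

theorem h_N0 {r m : ℕ} (hm : b r m = 0) : h r (N0 r m) = m := Nat.nth_count hm

theorem h_strictMono {r : ℕ} (hr : 2 ≤ r) : StrictMono (h r) := Nat.nth_strictMono (infinite_zero hr)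

theorem h_mem {r : ℕ} (hr : 2 ≤ r) (n : ℕ) : b r (h r n) = 0 :=
  Nat.nth_mem_of_infinite (infinite_zero hr) n

theorem N0_h {r : ℕ} (hr : 2 ≤ r) (n : ℕ) : N0 r (h r n) = n :=
  Nat.count_nth_of_infinite (infinite_zero hr) n

/-- consecutive zeros of `h` differ by `1` to `8` -/
theorem diff_bound {r : ℕ} (hr : 2 ≤ r) (n : ℕ) :
    1 ≤ (h r (n + 1) : ℤ) - h r n ∧ (h r (n + 1) : ℤ) - h r n ≤ 8 := by
  have h1 := h_strictMono hr (Nat.lt_succ_self n)
  refine ⟨by have : h r n < h r (n + 1) := h1; omega, ?_⟩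
  -- there is a number `≡ 5 (mod 8)` in `(h n, h n + 8]`
  set x := h r n with hx
  obtain ⟨y, hy1, hy2, hy3⟩ : ∃ y, x < y ∧ y ≤ x + 8 ∧ y % 8 = 5 := by
    refine ⟨8 * ((x + 3) / 8) + 5, ?_, ?_, ?_⟩ <;> omega
  have hby : b r y = 0 := by
    apply zb5 hr (j := 0); rw [pow_zero, Nat.div_one]; exact hy3
  have h2 : n < N0 r y := by
    have h3 : N0 r (x + 1) = n + 1 := by
      have h4 : N0 r (x + 1) = N0 r x + 1 := by
        unfold N0; rw [Nat.count_succ, if_pos (h_mem hr n)]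
      rw [h4, hx, N0_h hr]
    have h5 : N0 r (x + 1) ≤ N0 r y := Nat.count_monotone _ hy1
    omega
  have h6 : h r (n + 1) ≤ h r (N0 r y) := (h_strictMono hr).monotone h2
  rw [h_N0 hby] at h6
  omega

/-- no jump inside the gap -/
theorem no_jump {r : ℕ} (hr : 2 ≤ r) (J n : ℕ) (h1 : 5 * 2 ^ J ≤ n)
    (h2 : n + 1 + L r (5 * 2 ^ J) < 6 * 2 ^ J) : (h r (n + 1) : ℤ) - h r n = 1 := by
  obtain ⟨q, hq⟩ : ∃ q, n + L r (5 * 2 ^ J) = 5 * 2 ^ J + q := ⟨n + L r (5 * 2 ^ J) - 5 * 2 ^ J, by omega⟩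
  have hq1 : q + 1 < 2 ^ J := by omega
  have e1 := N0_add_L r (5 * 2 ^ J + q)
  rw [L_gap hr J q (by omega)] at e1
  have e2 := N0_add_L r (5 * 2 ^ J + (q + 1))
  rw [L_gap hr J (q + 1) (by omega)] at e2
  have f1 := h_N0 (b_gap hr J q (by omega))
  have f2 := h_N0 (b_gap hr J (q + 1) (by omega))
  rw [show N0 r (5 * 2 ^ J + q) = n by omega] at f1
  rw [show N0 r (5 * 2 ^ J + (q + 1)) = n + 1 by omega] at f2
  rw [f1, f2]; push_cast; ring

/-- the jump at the end of the gap -/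
theorem jump {r : ℕ} (hr : 2 ≤ r) (J n : ℕ) (hJ : r ∣ J + 1)
    (hn : n + 1 + L r (5 * 2 ^ J) = 6 * 2 ^ J) : (h r (n + 1) : ℤ) - h r n ≠ 1 := by
  have hp : 1 ≤ 2 ^ J := Nat.one_le_two_pow
  have e1 := N0_add_L r (5 * 2 ^ J + (2 ^ J - 1))
  rw [L_gap hr J (2 ^ J - 1) (by omega)] at e1
  have f1 := h_N0 (b_gap hr J (2 ^ J - 1) (by omega))
  rw [show N0 r (5 * 2 ^ J + (2 ^ J - 1)) = n by omega] at f1
  intro hcon
  have h2 : h r (n + 1) = 6 * 2 ^ J := by omega
  have h3 := h_mem hr (n + 1)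
  rw [h2] at h3
  exact b_six hJ h3

end Pool.Agent.R487.BS
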