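import Mathlib
import Pool.Agent.R487.BSStruct

/-! # The zero positions of the generalized Baum–Sweet sequences are not regular -/

set_option autoImplicit false

namespace Pool.Agent.R487.BS

theorem rot (Y0 β η : ℝ) (a : ℤ) (hβ : β = a + η) (hη : η ≠ 0) (hη9 : |η| ≤ 1 / 9) (T0 : ℕ) :
    ∃ t : ℕ, T0 ≤ t ∧ ∃ M : ℤ, 0 ≤ Y0 + t * β - M ∧ Y0 + t * β - M ≤ 1 / 9 := by
  rcases lt_or_gt_of_ne hη with hneg | hpos
  · have h9 : -η ≤ 1 / 9 := by rwa [abs_of_neg hneg] at hη9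
    set M0 : ℤ := ⌊Y0 + T0 * η - 1 / 9⌋ with hM0
    have hM : (M0 : ℝ) ≤ Y0 + T0 * η - 1 / 9 := Int.floor_le _
    have hnn : 0 < -η := by linarith
    set t : ℕ := ⌈(Y0 - M0 - 1 / 9) / (-η)⌉₊ with ht
    have h1 : (T0 : ℝ) ≤ (Y0 - M0 - 1 / 9) / (-η) := by
      rw [le_div_iff₀ hnn]; nlinarith
    have h2 : (Y0 - M0 - 1 / 9) / (-η) ≤ t := Nat.le_ceil _
    have h3 : (t : ℝ) < (Y0 - M0 - 1 / 9) / (-η) + 1 :=
      Nat.ceil_lt_add_one (le_trans (Nat.cast_nonneg _) h1)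
    have h4 : Y0 - M0 - 1 / 9 ≤ t * (-η) := by rwa [div_le_iff₀ hnn] at h2
    have h5 : t * (-η) < Y0 - M0 - 1 / 9 + (-η) := by
      have : ((t : ℝ) - 1) < (Y0 - M0 - 1 / 9) / (-η) := by linarith
      rw [lt_div_iff₀ hnn] at this
      linarith
    refine ⟨t, by exact_mod_cast h1.trans h2, M0 + t * a, ?_, ?_⟩
    · push_cast; rw [hβ]; nlinarith
    · push_cast; rw [hβ]; nlinarith
  · have h9 : η ≤ 1 / 9 := by rwa [abs_of_pos hpos] at hη9
    set M0 : ℤ := ⌈Y0 + T0 * η⌉ with hM0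
    have hM : Y0 + T0 * η ≤ (M0 : ℝ) := Int.le_ceil _
    set t : ℕ := ⌈(M0 - Y0) / η⌉₊ with ht
    have h1 : (T0 : ℝ) ≤ (M0 - Y0) / η := by
      rw [le_div_iff₀ hpos]; linarith
    have h2 : (M0 - Y0) / η ≤ t := Nat.le_ceil _
    have h3 : (t : ℝ) < (M0 - Y0) / η + 1 :=
      Nat.ceil_lt_add_one (le_trans (Nat.cast_nonneg _) h1)
    have h4 : M0 - Y0 ≤ t * η := by rwa [div_le_iff₀ hpos] at h2
    have h5 : t * η < M0 - Y0 + η := by
      have : ((t : ℝ) - 1) < (M0 - Y0) / η := by linarith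
      rw [lt_div_iff₀ hpos] at this
      linarith
    refine ⟨t, by exact_mod_cast h1.trans h2, M0 + t * a, ?_, ?_⟩
    · push_cast; rw [hβ]; nlinarith
    · push_cast; rw [hβ]; nlinarith

theorem two_rpow_ninth : (2 : ℝ) ^ ((1 : ℝ) / 9) ≤ 1.09 := by
  have h1 : (2 : ℝ) ≤ (1.09 : ℝ) ^ (9 : ℕ) := by norm_num
  calc (2 : ℝ) ^ ((1 : ℝ) / 9) ≤ ((1.09 : ℝ) ^ (9 : ℕ)) ^ ((1 : ℝ) / 9) :=
        Real.rpow_le_rpow (by norm_num) h1 (by norm_num)
    _ = 1.09 := by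
      rw [← Real.rpow_natCast, ← Real.rpow_mul (by norm_num)]
      norm_num

/-- **Main theorem.** For `r ≥ 2` and `k ≥ 2` the sequence of zero positions is not `k`-regular. -/
theorem main {r k : ℕ} (hr : 2 ≤ r) (hk : 2 ≤ k) : ¬ IsRegular k (fun n => (h r n : ℤ)) := by
  intro hreg
  have hfin := finite_kernel_diff (by omega) hreg (diff_bound hr)
  obtain ⟨i, P, hP, hsc⟩ := scale (by omega) hfin
  -- choice of `J`
  obtain ⟨X1, hX1⟩ := L_little hr 10
  set K := k ^ i with hK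
  have hK1 : 1 ≤ K := Nat.pow_pos (by omega)
  obtain ⟨J, hJr, hJ1, hJ2, hJ3⟩ : ∃ J : ℕ, r ∣ J + 1 ∧ X1 ≤ 5 * 2 ^ J ∧
      K + 1 ≤ L r (5 * 2 ^ J) ∧ 400 * K ≤ 2 ^ J := by
    refine ⟨r * (X1 + 400 * K + 1) - 1, ?_, ?_, ?_, ?_⟩
    · rw [Nat.sub_add_cancel]
      · exact Dvd.intro _ rfl
      · exact Nat.mul_pos (by omega) (by omega)
    all_goals
      set J := r * (X1 + 400 * K + 1) - 1 with hJ
      have hJge : X1 + 400 * K ≤ J := by
        have : 2 * (X1 + 400 * K + 1) ≤ r * (X1 + 400 * K + 1) := Nat.mul_le_mul_right _ hr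
        omega
      have h2J : J < 2 ^ J := Nat.lt_two_pow_self
    · omega
    · have h3 := L_ge r J
      have h4 := L_mono r (show 2 ^ J ≤ 5 * 2 ^ J by omega)
      omega
    · omega
  have hL := hX1 _ hJ1
  set Λ := L r (5 * 2 ^ J) with hΛ
  obtain ⟨x, hx⟩ : ∃ x, x + 1 + Λ = 6 * 2 ^ J := ⟨6 * 2 ^ J - 1 - Λ, by omega⟩
  have hjump := jump hr J x hJr hx
  set w := x / K with hw
  have hdm : K * w + x % K = x := Nat.div_add_mod x K
  have hmod : x % K < K := Nat.mod_lt _ hK1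
  have hy : ∀ t : ℕ, ∃ c : ℕ, c < k ^ (i + t * P) ∧
      ((h r (k ^ (i + t * P) * w + c + 1) : ℤ) - h r (k ^ (i + t * P) * w + c)) ≠ 1 := by
    intro t
    apply hsc w t
    refine ⟨x % K, hmod, ?_⟩
    rw [hdm]; exact hjump
  have key : ∀ t J' : ℕ, 5 * 2 ^ J' ≤ k ^ (i + t * P) * w →
      ¬ (k ^ (i + t * P) * (w + 1) + L r (5 * 2 ^ J') < 6 * 2 ^ J') := by
    intro t J' h1 h2
    obtain ⟨c, hc, hne⟩ := hy t
    apply hne
    apply no_jump hr J'
    · omega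
    · have : k ^ (i + t * P) * (w + 1) = k ^ (i + t * P) * w + k ^ (i + t * P) := by ring
      omega
  by_cases hpow : ∃ s, k = 2 ^ s
  · -- `k` is a power of two
    obtain ⟨s, hs⟩ := hpow
    obtain ⟨X2, hX2⟩ := L_little hr (5 * 2 ^ J)
    have hkt : k ^ (X2 * P) = 2 ^ (s * (X2 * P)) := by rw [hs, ← pow_mul]
    have h2J' : 2 ^ (J + s * (X2 * P)) = 2 ^ J * k ^ (X2 * P) := by rw [pow_add, hkt]
    have hbig : X2 ≤ k ^ (X2 * P) := by
      calc X2 ≤ 2 ^ X2 := Nat.lt_two_pow_self.le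
        _ ≤ k ^ X2 := Nat.pow_le_pow_left hk _
        _ ≤ k ^ (X2 * P) := Nat.pow_le_pow_right (by omega) (Nat.le_mul_of_pos_right _ hP)
    set Q := k ^ (X2 * P) with hQ
    have hsplit : k ^ (i + X2 * P) = K * Q := by rw [pow_add]
    have hQ1 : 1 ≤ Q := Nat.pow_pos (by omega)
    refine key X2 (J + s * (X2 * P)) ?_ ?_
    · rw [h2J', hsplit]
      calc 5 * (2 ^ J * Q) = (5 * 2 ^ J) * Q := by ring
        _ ≤ (K * w) * Q := Nat.mul_le_mul_right _ (by omega)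
        _ = K * Q * w := by ring
    · rw [h2J', hsplit]
      have e1 : K * Q * (w + 1) ≤ (6 * 2 ^ J - 2) * Q := by
        calc K * Q * (w + 1) = (K * w + K) * Q := by ring
          _ ≤ (6 * 2 ^ J - 2) * Q := Nat.mul_le_mul_right _ (by omega)
      have e2 := hX2 (5 * (2 ^ J * Q)) (by
        calc X2 ≤ Q := hbig
          _ ≤ 5 * (2 ^ J * Q) := by
            have : Q ≤ 2 ^ J * Q := Nat.le_mul_of_pos_left _ (by positivity)
            omega)
      have e3 : L r (5 * (2 ^ J * Q)) ≤ Q := by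
        have : 5 * 2 ^ J * L r (5 * (2 ^ J * Q)) ≤ 5 * 2 ^ J * Q := by
          calc _ ≤ 5 * (2 ^ J * Q) := e2
            _ = _ := by ring
        exact Nat.le_of_mul_le_mul_left this (by positivity)
      have e4 : (6 * 2 ^ J - 2) * Q + 2 * Q = 6 * (2 ^ J * Q) := by
        have : 2 ≤ 6 * 2 ^ J := by omega
        rw [← Nat.add_mul, Nat.sub_add_cancel this]; ring
      omega
  · -- `k` is not a power of two
    obtain ⟨X2, hX2⟩ := L_little hr 11
    have hw200 : 200 ≤ w := by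
      rw [hw, Nat.le_div_iff_mul_le hK1]; omega
    have hκ : (0 : ℝ) < (k : ℝ) ^ P := by positivity
    set ξ := Real.logb 2 ((k : ℝ) ^ P) with hξ
    obtain ⟨a, q, hq0, -, hqa⟩ := Real.exists_int_int_abs_mul_sub_le ξ (n := 8) (by norm_num)
    obtain ⟨q', rfl⟩ : ∃ q' : ℕ, q = (q' : ℤ) := ⟨q.toNat, (Int.toNat_of_nonneg hq0.le).symm⟩
    have hq0' : 1 ≤ q' := by exact_mod_cast hq0
    have hk2 : (2 : ℝ) ≤ (k : ℝ) := by exact_mod_cast hk
    have hk1 : (1 : ℝ) < (k : ℝ) := by linarith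
    have hξpos : 0 < ξ := Real.logb_pos (by norm_num) (one_lt_pow₀ hk1 (by omega))
    have hβpos : 0 < (q' : ℝ) * ξ := mul_pos (by exact_mod_cast hq0') hξpos
    have hne : (q' : ℝ) * ξ - a ≠ 0 := by
      intro h0
      apply hpow
      have h1 : (q' : ℝ) * ξ = a := by linarith
      have ha : 0 ≤ a := by
        have : (0 : ℝ) < (a : ℝ) := by rw [← h1]; exact hβpos
        exact_mod_cast this.le
      obtain ⟨a', rfl⟩ : ∃ a' : ℕ, a = (a' : ℤ) := ⟨a.toNat, (Int.toNat_of_nonneg ha).symm⟩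
      have h2 : Real.logb 2 ((k : ℝ) ^ (P * q')) = (a' : ℝ) := by
        rw [pow_mul, Real.logb_pow, ← hξ, h1]
        push_cast; rfl
      have h3 : (2 : ℝ) ^ (a' : ℝ) = (k : ℝ) ^ (P * q') :=
        (Real.logb_eq_iff_rpow_eq (by norm_num) (by norm_num) (by positivity)).mp h2
      rw [Real.rpow_natCast] at h3
      have h4 : k ^ (P * q') = 2 ^ a' := by exact_mod_cast h3.symm
      have h5 : k ∣ 2 ^ a' := by
        rw [← h4]; exact dvd_pow_self k (Nat.mul_ne_zero (by omega) (by omega))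
      obtain ⟨s, -, hs⟩ := (Nat.dvd_prime_pow Nat.prime_two).mp h5
      exact ⟨s, hs⟩
    have hwpos : (0 : ℝ) < (w : ℝ) := by
      have : 0 < w := by omega
      exact_mod_cast this
    have hKpos : (0 : ℝ) < (K : ℝ) := by exact_mod_cast hK1
    set Y0 := Real.logb 2 ((K : ℝ) * w / 5) with hY0
    obtain ⟨T0, hT0⟩ := exists_nat_ge (((X2 : ℝ) + 1 / 9 - Y0) / ((q' : ℝ) * ξ))
    obtain ⟨t, htT, M, hM1, hM2⟩ := rot Y0 ((q' : ℝ) * ξ) ((q' : ℝ) * ξ - a) a (by ring) hne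
      (by norm_num at hqa ⊢; exact hqa) T0
    have hYge : (X2 : ℝ) + 1 / 9 ≤ Y0 + t * ((q' : ℝ) * ξ) := by
      rw [div_le_iff₀ hβpos] at hT0
      have : (T0 : ℝ) * ((q' : ℝ) * ξ) ≤ t * ((q' : ℝ) * ξ) :=
        mul_le_mul_of_nonneg_right (by exact_mod_cast htT) hβpos.le
      linarith
    have hMX : (X2 : ℤ) ≤ M := by
      have : (X2 : ℝ) ≤ (M : ℝ) := by linarith
      exact_mod_cast this
    obtain ⟨J', rfl⟩ : ∃ J' : ℕ, M = (J' : ℤ) :=
      ⟨M.toNat, (Int.toNat_of_nonneg (le_trans (Int.natCast_nonneg _) hMX)).symm⟩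
    have hJ'X : X2 ≤ J' := by exact_mod_cast hMX
    -- the value
    set V : ℝ := (K : ℝ) * w / 5 * ((k : ℝ) ^ P) ^ (q' * t) with hV
    have hVpos : 0 < V := by positivity
    have hlogV : Real.logb 2 V = Y0 + t * ((q' : ℝ) * ξ) := by
      rw [hV, Real.logb_mul (by positivity) (by positivity), Real.logb_pow]
      push_cast; ring
    have hV1 : (2 : ℝ) ^ J' ≤ V := by
      rw [← Real.rpow_natCast, ← Real.le_logb_iff_rpow_le (by norm_num) hVpos, hlogV]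
      push_cast at hM1; linarith
    have hV2 : V ≤ 1.09 * (2 : ℝ) ^ J' := by
      have h1 : V ≤ (2 : ℝ) ^ ((1 / 9 : ℝ) + J') := by
        rw [← Real.logb_le_iff_le_rpow (by norm_num) hVpos, hlogV]
        push_cast at hM2; linarith
      rw [Real.rpow_add (by norm_num), Real.rpow_natCast] at h1
      exact h1.trans (mul_le_mul_of_nonneg_right two_rpow_ninth (by positivity))
    have hVeq : ((k ^ (i + (q' * t) * P) * w : ℕ) : ℝ) = 5 * V := by
      rw [hV]; push_cast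
      rw [hK, pow_add, ← pow_mul, mul_comm P]; push_cast; ring
    refine key (q' * t) J' ?_ ?_
    · have : ((5 * 2 ^ J' : ℕ) : ℝ) ≤ ((k ^ (i + (q' * t) * P) * w : ℕ) : ℝ) := by
        rw [hVeq]; push_cast; linarith
      exact_mod_cast this
    · have hLJ := hX2 (5 * 2 ^ J') (by
        have : J' < 2 ^ J' := Nat.lt_two_pow_self
        omega)
      have hLJ' : (11 : ℝ) * L r (5 * 2 ^ J') ≤ 5 * 2 ^ J' := by exact_mod_cast hLJ
      have h1 : ((k ^ (i + (q' * t) * P) * (w + 1) : ℕ) : ℝ) = 5 * V + 5 * V / w := by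
        rw [← hVeq]; push_cast; field_simp
      have hw200' : (200 : ℝ) ≤ (w : ℝ) := by exact_mod_cast hw200
      have h2 : 5 * V / w ≤ 5 * V / 200 :=
        div_le_div_of_nonneg_left (by positivity) (by norm_num) hw200'
      have h3 : ((k ^ (i + (q' * t) * P) * (w + 1) + L r (5 * 2 ^ J') : ℕ) : ℝ) <
          ((6 * 2 ^ J' : ℕ) : ℝ) := by
        rw [Nat.cast_add, h1]
        push_cast
        have hp : (0 : ℝ) < 2 ^ J' := by positivity
        nlinarith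
      exact_mod_cast h3

end Pool.Agent.R487.BS
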