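import Mathlib

/-! # A zero-free region for Stern polynomials

If `|t - 2|² ≤ |t - 1|` then the sequence `b 1 = 1`, `b (2n) = t b n`, `b (2n+1) = b n + b (n+1)`
has no zero term. -/

set_option autoImplicit false

namespace Pool.Agent.R487.Stern

theorem ineqLine (T v : ℝ) (hT : 0 < T) (h2 : 2 * v ^ 2 - v + 2 ≤ T ^ 2) :
    0.866 * (v + 1) ≤ T := by
  by_contra h
  push Not at h
  have h3 : T ^ 2 < (0.866 * (v + 1)) ^ 2 := by
    apply pow_lt_pow_left₀ h hT.le (by norm_num)
  linarith [sq_nonneg (v - 1), sq_nonneg v]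

theorem poly6 (T : ℝ) :
    0 ≤ (3 * T ^ 2 + T / 0.866 - 5) ^ 2 +
      8 * T ^ 2 * (T ^ 2 - 2 * T + 2) * (T ^ 2 - (4 + 1 / 0.866) * T + 5) := by
  have h : (3 * T ^ 2 + T / 0.866 - 5) ^ 2 +
      8 * T ^ 2 * (T ^ 2 - 2 * T + 2) * (T ^ 2 - (4 + 1 / 0.866) * T + 5) =
    8*(T^3+(-1549/433)*T^2+(66/25)*T+(173/200))^2 +
    (13383441/4687225)*(T^2+(-4759969/1487049)*T+(5/2))^2 +
    (90334131044474/58084443741875)*(T+(-138622052982757/180668262088948))^2 +
    (214242007964905054723/846832794769869289300) := by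
    ring
  rw [h]; positivity

theorem G1 (T v : ℝ) (hT : 0 < T) (h2 : 2 * v ^ 2 - v + 2 ≤ T ^ 2) :
    8 * T ^ 2 * (T ^ 2 - 2 * T + 2) * (v - (T - 2) ^ 2) ≤ (3 * T ^ 2 - 4 + v) ^ 2 := by
  have hl := ineqLine T v hT h2
  have hp := poly6 T
  obtain ⟨δ, hδ, hv⟩ : ∃ δ : ℝ, 0 ≤ δ ∧ v = T / 0.866 - 1 - δ := by
    refine ⟨T / 0.866 - 1 - v, ?_, by ring⟩
    have : v + 1 ≤ T / 0.866 := by rw [le_div_iff₀ (by norm_num)]; linarith
    linarith
  have hK : 8 * T ^ 2 ≤ 8 * T ^ 2 * (T ^ 2 - 2 * T + 2) := by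
    have : 1 ≤ T ^ 2 - 2 * T + 2 := by linarith [sq_nonneg (T - 1)]
    exact le_mul_of_one_le_right (by positivity) this
  have hd : 0 ≤ δ * (8 * T ^ 2 * (T ^ 2 - 2 * T + 2) - v - (T / 0.866 - 1) -
      2 * (3 * T ^ 2 - 4)) := by
    apply mul_nonneg hδ
    have : T / 0.866 ≤ 1.16 * T := by
      rw [div_le_iff₀ (by norm_num)]; linarith
    linarith [sq_nonneg (T - 0.6)]
  have e : (3 * T ^ 2 - 4 + v) ^ 2 - 8 * T ^ 2 * (T ^ 2 - 2 * T + 2) * (v - (T - 2) ^ 2) =
    ((3 * T ^ 2 + T / 0.866 - 5) ^ 2 +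
      8 * T ^ 2 * (T ^ 2 - 2 * T + 2) * (T ^ 2 - (4 + 1 / 0.866) * T + 5)) +
    δ * (8 * T ^ 2 * (T ^ 2 - 2 * T + 2) - v - (T / 0.866 - 1) - 2 * (3 * T ^ 2 - 4)) := by
    rw [hv]; ring
  linarith

theorem vbound (T v : ℝ) (hT : 0 < T) (h1 : (T - 2) ^ 2 ≤ v) (h2 : 2 * v ^ 2 - v + 2 ≤ T ^ 2) :
    v ≤ 2.62 := by
  have hv : 0 ≤ v := le_trans (sq_nonneg _) h1
  obtain ⟨y, hy, rfl⟩ : ∃ y : ℝ, 0 ≤ y ∧ v = y ^ 2 :=
    ⟨√v, Real.sqrt_nonneg v, (Real.sq_sqrt hv).symm⟩
  have h3 : T - 2 ≤ y := by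
    have := abs_le_of_sq_le_sq' h1 hy
    linarith [this.2]
  have h4 : T ^ 2 ≤ (2 + y) ^ 2 := pow_le_pow_left₀ hT.le (by linarith) 2
  have h5 : (y ^ 2 - y - 1) * (y ^ 2 + y + 1) ≤ 0 := by linarith
  have h6 : y ^ 2 - y - 1 ≤ 0 := by
    by_contra hc
    push Not at hc
    have : 0 < (y ^ 2 - y - 1) * (y ^ 2 + y + 1) := mul_pos hc (by positivity)
    linarith
  have h7 : y ≤ 1.62 := by
    by_contra hc
    push Not at hc
    nlinarith
  linarith

theorem G2 (T v : ℝ) (hT : 0 < T) (h1 : (T - 2) ^ 2 ≤ v) (h2 : 2 * v ^ 2 - v + 2 ≤ T ^ 2) :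
    (v - (T - 2) ^ 2) * (T ^ 2 + 1) ≤ 3 * T ^ 2 - 4 + v := by
  have h3 := vbound T v hT h1 h2
  have hv : 0 ≤ v := le_trans (sq_nonneg _) h1
  have h4 : (2 * v ^ 2 - v + 2) * (3 - v) ≤ T ^ 2 * (3 - v) :=
    mul_le_mul_of_nonneg_right h2 (by linarith)
  have h5 : 0 ≤ (2 * v ^ 2 - v + 2) * (3 - v) - 4 := by
    linarith [mul_nonneg (sub_nonneg.mpr h3) (sq_nonneg (v - 0.44))]
  linarith [mul_nonneg (by positivity : (0:ℝ) ≤ T ^ 2 + 1) (sq_nonneg (T - 2))]

/-- membership in the closed disc with centre `c` orthogonal to the unit circle -/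
def In (c q : ℂ) : Prop := Complex.normSq (q - c) ≤ Complex.normSq c - 1

theorem in_ne_zero {c q : ℂ} (h : In c q) : q ≠ 0 := by
  rintro rfl
  unfold In at h
  rw [zero_sub, Complex.normSq_neg] at h
  linarith

theorem in_ne_neg_one {c q : ℂ} (hc : 0 < c.re) (h : In c q) : 1 + q ≠ 0 := by
  intro h0
  have : q = -1 := by linear_combination h0
  subst this
  unfold In at h
  rw [Complex.normSq_apply, Complex.normSq_apply] at h
  simp only [Complex.sub_re, Complex.neg_re, Complex.one_re, Complex.sub_im, Complex.neg_im,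
    Complex.one_im] at h
  linarith

theorem in_inv {c q : ℂ} (h : In c q) : In (starRingEnd ℂ c) q⁻¹ := by
  have hq := in_ne_zero h
  unfold In at h ⊢
  have hN : 0 < Complex.normSq q := Complex.normSq_pos.mpr hq
  rw [Complex.normSq_apply (q⁻¹ - _), Complex.sub_re, Complex.sub_im, Complex.inv_re,
    Complex.inv_im, Complex.conj_re, Complex.conj_im, Complex.normSq_conj]
  rw [Complex.normSq_apply (q - c), Complex.sub_re, Complex.sub_im] at h
  have hNe : Complex.normSq q = q.re * q.re + q.im * q.im := Complex.normSq_apply q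
  have hce : Complex.normSq c = c.re * c.re + c.im * c.im := Complex.normSq_apply c
  set N := Complex.normSq q
  have key : (q.re / N - c.re) * (q.re / N - c.re) + (-q.im / N - -c.im) * (-q.im / N - -c.im) =
      (q.re * q.re + q.im * q.im) / (N * N) - 2 * (q.re * c.re + q.im * c.im) / N +
      (c.re * c.re + c.im * c.im) := by
    field_simp
    ring
  rw [key, ← hNe, ← hce]
  have h1 : N / (N * N) = 1 / N := by field_simp
  rw [h1]
  have h2 : 1 / N - 2 * (q.re * c.re + q.im * c.im) / N = (1 - 2 * (q.re * c.re + q.im * c.im)) / N := by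
    ring
  rw [h2]
  have h3 : (1 - 2 * (q.re * c.re + q.im * c.im)) / N ≤ -1 := by
    rw [div_le_iff₀ hN]
    linarith
  linarith

/-- the image under `q ↦ (1 + q) / t` -/
theorem in_step {c c' q t : ℂ} (ρ T : ℝ) (hρ : 0 ≤ ρ) (hρ2 : ρ ^ 2 = Complex.normSq c - 1)
    (hcc : Complex.normSq c' = Complex.normSq c) (hT : ‖t‖ = T) (hT1 : 0 < T)
    (hb : ‖1 + c' - c * t‖ ≤ ρ * (T - 1)) (h : In c' q) : In c ((1 + q) / t) := by
  unfold In at h ⊢
  rw [hcc, ← hρ2, Complex.normSq_eq_norm_sq] at h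
  rw [← hρ2, Complex.normSq_eq_norm_sq]
  have h1 : ‖q - c'‖ ≤ ρ := by
    exact (abs_le_of_sq_le_sq' h hρ).2
  have ht : t ≠ 0 := by
    rintro rfl
    rw [norm_zero] at hT; linarith
  have h2 : (1 + q) / t - c = ((q - c') + (1 + c' - c * t)) / t := by
    field_simp
    ring
  rw [h2, norm_div, hT, div_pow, div_le_iff₀ (by positivity)]
  have h3 : ‖(q - c') + (1 + c' - c * t)‖ ≤ ρ * T := by
    calc _ ≤ ‖q - c'‖ + ‖1 + c' - c * t‖ := norm_add_le _ _
      _ ≤ ρ + ρ * (T - 1) := add_le_add h1 hb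
      _ = ρ * T := by ring
  calc _ ≤ (ρ * T) ^ 2 := pow_le_pow_left₀ (norm_nonneg _) h3 2
    _ = _ := by ring

set_option maxHeartbeats 4000000 in
/-- the invariant discs -/
theorem discs (t : ℂ) (him : t.im ≠ 0) (ht : ‖t - 2‖ ^ 2 ≤ ‖t - 1‖) :
    ∃ c : ℂ, 0 < c.re ∧ In (starRingEnd ℂ c) t ∧
      ∀ q, (In c q ∨ In (starRingEnd ℂ c) q) → In c ((1 + q) / t) := by
  set T := ‖t‖ with hT
  set a := t.re with ha
  set y := t.im with hy
  have hTsq : T ^ 2 = a ^ 2 + y ^ 2 := by
    rw [hT, ← Complex.normSq_eq_norm_sq, Complex.normSq_apply]; ring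
  have hT0 : 0 < T := by
    rw [hT]; apply norm_pos_iff.mpr; intro h0
    apply him; rw [hy, h0]; simp
  have haT : a < T := by
    have hy2 : 0 < y ^ 2 := by positivity
    by_contra hc
    push Not at hc
    have := pow_le_pow_left₀ hT0.le hc 2
    linarith
  set v := T ^ 2 - 4 * a + 4 with hv
  have hvn : ‖t - 2‖ ^ 2 = v := by
    rw [← Complex.normSq_eq_norm_sq, Complex.normSq_apply]
    simp only [Complex.sub_re, Complex.sub_im, Complex.re_ofNat, Complex.im_ofNat]
    rw [hv, hTsq]; ring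
  have hwn : ‖t - 1‖ ^ 2 = T ^ 2 - 2 * a + 1 := by
    rw [← Complex.normSq_eq_norm_sq, Complex.normSq_apply]
    simp only [Complex.sub_re, Complex.sub_im, Complex.one_re, Complex.one_im]
    rw [hTsq]; ring
  have hv0 : 0 ≤ v := by rw [← hvn]; positivity
  have h2 : 2 * v ^ 2 - v + 2 ≤ T ^ 2 := by
    have : v ^ 2 ≤ T ^ 2 - 2 * a + 1 := by
      rw [← hwn]
      rw [hvn] at ht
      exact pow_le_pow_left₀ hv0 ht 2
    linarith
  have h1 : (T - 2) ^ 2 ≤ v := by rw [hv]; linarith
  have hG1 := G1 T v hT0 h2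
  have hG2 := G2 T v hT0 h1 h2
  have ha0 : 0 < a := by linarith [sq_nonneg (v - 1), sq_nonneg v]
  have hTa : 0 < T - a := by linarith
  have e1 : 3 * T ^ 2 - 4 + v = 4 * (T ^ 2 - a) := by rw [hv]; ring
  have e2 : v - (T - 2) ^ 2 = 4 * (T - a) := by rw [hv]; ring
  rw [e1, e2] at hG1 hG2
  -- the radius of the centre
  set r := (T ^ 2 - a) / (2 * T * (T - a)) with hr
  have hden : 0 < 2 * T * (T - a) := by positivity
  have hr1 : (T ^ 2 + 1) / (2 * T) ≤ r := by
    rw [hr, div_le_div_iff₀ (by positivity) hden]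
    have hmul := mul_le_mul_of_nonneg_right hG2 hT0.le
    calc (T ^ 2 + 1) * (2 * T * (T - a)) = (4 * (T - a) * (T ^ 2 + 1) * T) / 2 := by ring
      _ ≤ (4 * (T ^ 2 - a) * T) / 2 := by linarith
      _ = (T ^ 2 - a) * (2 * T) := by ring
  have hr2 : r * (2 * T * (T - a)) = T ^ 2 - a := by
    rw [hr]; field_simp
  have hTT : 1 ≤ (T ^ 2 + 1) / (2 * T) := by
    rw [le_div_iff₀ (by positivity)]; linarith [sq_nonneg (T - 1)]
  have hr0 : 1 ≤ r := hTT.trans hr1
  have hT1 : 1 ≤ T := by
    by_contra hc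
    push Not at hc
    have := pow_lt_one₀ hT0.le hc two_ne_zero
    linarith [sq_nonneg (v - 1 / 4)]
  clear_value r
  set ρ := √(r ^ 2 - 1) with hρ
  have hρ2 : ρ ^ 2 = r ^ 2 - 1 := Real.sq_sqrt (by
    have := one_le_pow₀ hr0 (n := 2)
    linarith)
  have hρ0 : 0 ≤ ρ := Real.sqrt_nonneg _
  set c : ℂ := ⟨r * a / T, -(r * y / T)⟩ with hc
  have hcn : Complex.normSq c = r ^ 2 := by
    rw [Complex.normSq_apply, hc]
    simp only
    have : r * a / T * (r * a / T) + -(r * y / T) * -(r * y / T) = r ^ 2 * (a ^ 2 + y ^ 2) / T ^ 2 := by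
      field_simp
    rw [this, ← hTsq]; field_simp
  have hct : c * t = ((r * T : ℝ) : ℂ) := by
    apply Complex.ext
    · simp only [Complex.mul_re, Complex.ofReal_re, hc, ← ha, ← hy]
      have : r * a / T * a - -(r * y / T) * y = r * (a ^ 2 + y ^ 2) / T := by
        field_simp; ring
      rw [this, ← hTsq]; field_simp
    · simp only [Complex.mul_im, Complex.ofReal_im, hc, ← ha, ← hy]
      field_simp; ring
  -- the key bound
  have hkey : (1 + r * a / T - r * T) ^ 2 + (r * y / T) ^ 2 ≤ (ρ * (T - 1)) ^ 2 := by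
    rw [mul_pow, hρ2]
    have e3 : (r * y / T) ^ 2 = r ^ 2 - (r * a / T) ^ 2 := by
      have : r ^ 2 = r ^ 2 * (a ^ 2 + y ^ 2) / T ^ 2 := by rw [← hTsq]; field_simp
      rw [div_pow, div_pow, mul_pow, mul_pow]
      nth_rewrite 2 [this]
      field_simp; ring
    rw [e3]
    set x := a / T with hx
    have hax : r * a / T = r * x := by rw [hx]; ring
    rw [hax]
    have haxT : a = x * T := by rw [hx]; field_simp
    have hr3 : r * (2 * T * (1 - x)) = T - x := by
      have : T * (r * (2 * T * (1 - x))) = T * (T - x) := by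
        rw [haxT] at hr2; linear_combination hr2
      exact mul_left_cancel₀ hT0.ne' this
    have hx1 : 0 < T - x := by
      have : x < 1 := by rw [hx, div_lt_one hT0]; exact haT
      linarith
    -- `r (T - x) ≥ T² - 2T + 2`
    have h5 : T ^ 2 - 2 * T + 2 ≤ r * (T - x) := by
      have h6 : 2 * T * (1 - x) * (T ^ 2 - 2 * T + 2) ≤ (T - x) ^ 2 := by
        have h7 : 8 * T ^ 2 * (T ^ 2 - 2 * T + 2) * (4 * (T - a)) ≤ (4 * (T ^ 2 - a)) ^ 2 := hG1
        rw [haxT] at h7
        have h8 : T ^ 2 * (2 * T * (1 - x) * (T ^ 2 - 2 * T + 2)) ≤ T ^ 2 * (T - x) ^ 2 := by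
          linarith
        exact le_of_mul_le_mul_left h8 (by positivity)
      have h9 : 0 < 2 * T * (1 - x) := by
        have : x < 1 := by rw [hx, div_lt_one hT0]; exact haT
        have : 0 < 1 - x := by linarith
        positivity
      have h10 : (2 * T * (1 - x)) * (T ^ 2 - 2 * T + 2) ≤ (2 * T * (1 - x)) * (r * (T - x)) := by
        calc _ ≤ (T - x) ^ 2 := h6
          _ = (r * (2 * T * (1 - x))) * (T - x) := by rw [hr3]; ring
          _ = _ := by ring
      exact le_of_mul_le_mul_left h10 h9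
    have h11 : r ^ 2 * (2 * T * (1 - x)) = r * (T - x) := by
      calc _ = r * (r * (2 * T * (1 - x))) := by ring
        _ = _ := by rw [hr3]
    linarith
  have hρT : 0 ≤ ρ * (T - 1) := mul_nonneg hρ0 (by linarith)
  have hb1 : ‖1 + c - c * t‖ ≤ ρ * (T - 1) := by
    apply le_of_sq_le_sq _ hρT
    rw [← Complex.normSq_eq_norm_sq, Complex.normSq_apply, hct]
    simp only [Complex.sub_re, Complex.add_re, Complex.one_re, Complex.ofReal_re, Complex.sub_im,
      Complex.add_im, Complex.one_im, Complex.ofReal_im, hc]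
    calc _ = (1 + r * a / T - r * T) ^ 2 + (r * y / T) ^ 2 := by ring
      _ ≤ _ := hkey
  have hb2 : ‖1 + (starRingEnd ℂ c) - c * t‖ ≤ ρ * (T - 1) := by
    have : 1 + (starRingEnd ℂ c) - c * t = starRingEnd ℂ (1 + c - c * t) := by
      rw [hct, map_sub, map_add, map_one, Complex.conj_ofReal]
    rw [this, Complex.norm_conj]; exact hb1
  refine ⟨c, ?_, ?_, ?_⟩
  · rw [hc]; positivity
  · unfold In
    rw [Complex.normSq_conj, hcn, Complex.normSq_apply]
    simp only [Complex.sub_re, Complex.sub_im, Complex.conj_re, Complex.conj_im, hc, neg_neg,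
      ← ha, ← hy]
    have e4 : (a - r * a / T) * (a - r * a / T) + (y - r * y / T) * (y - r * y / T) =
        (a ^ 2 + y ^ 2) * (1 - r / T) ^ 2 := by ring
    rw [e4, ← hTsq]
    have e5 : T ^ 2 * (1 - r / T) ^ 2 = (T - r) ^ 2 := by field_simp
    rw [e5]
    rw [div_le_iff₀ (by positivity)] at hr1
    linarith
  · rintro q (hq | hq)
    · exact in_step ρ T hρ0 (by rw [hcn, hρ2]) rfl rfl hT0 hb1 hq
    · exact in_step ρ T hρ0 (by rw [hcn, hρ2]) (Complex.normSq_conj c) rfl hT0 hb2 hq

/-- the zero-free region -/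
theorem zero_free (t : ℂ) (ht : ‖t - 2‖ ^ 2 ≤ ‖t - 1‖) (b : ℕ → ℂ) (h1 : b 1 = 1)
    (he : ∀ n, 1 ≤ n → b (2 * n) = t * b n) (ho : ∀ n, 1 ≤ n → b (2 * n + 1) = b n + b (n + 1)) :
    ∀ n, 1 ≤ n → b n ≠ 0 := by
  by_cases him : t.im = 0
  · -- real case
    have htr : t = (t.re : ℂ) := by apply Complex.ext <;> simp [him]
    have hpos : 0 < t.re := by
      rw [htr] at ht
      have e1 : ((t.re : ℂ) - 2) = ((t.re - 2 : ℝ) : ℂ) := by push_cast; rfl
      have e2 : ((t.re : ℂ) - 1) = ((t.re - 1 : ℝ) : ℂ) := by push_cast; rfl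
      rw [e1, e2, Complex.norm_real, Complex.norm_real, Real.norm_eq_abs, Real.norm_eq_abs,
        sq_abs] at ht
      by_contra hc
      push Not at hc
      rw [abs_of_nonpos (by linarith)] at ht
      linarith [sq_nonneg t.re]
    have key : ∀ n, 1 ≤ n → ∃ x : ℝ, 0 < x ∧ b n = x := by
      intro n
      induction n using Nat.strong_induction_on with
      | _ n ih =>
        intro hn
        rcases Nat.lt_or_ge n 2 with h | h
        · have : n = 1 := by omega
          subst this
          exact ⟨1, one_pos, by rw [h1]; simp⟩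
        · rcases Nat.even_or_odd' n with ⟨m, hm | hm⟩
          · obtain ⟨x, hx, hbx⟩ := ih m (by omega) (by omega)
            refine ⟨t.re * x, by positivity, ?_⟩
            rw [hm, he m (by omega), hbx]
            nth_rewrite 1 [htr]
            push_cast; rfl
          · obtain ⟨x, hx, hbx⟩ := ih m (by omega) (by omega)
            obtain ⟨z, hz, hbz⟩ := ih (m + 1) (by omega) (by omega)
            refine ⟨x + z, by positivity, ?_⟩
            rw [hm, ho m (by omega), hbx, hbz]; push_cast; rfl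
    intro n hn
    obtain ⟨x, hx, hbx⟩ := key n hn
    rw [hbx]
    exact_mod_cast hx.ne'
  · obtain ⟨c, hc0, hct, hstep⟩ := discs t him ht
    have ht0 : t ≠ 0 := in_ne_zero hct
    have hc0' : 0 < (starRingEnd ℂ c).re := by rw [Complex.conj_re]; exact hc0
    have key : ∀ n, 1 ≤ n → b n ≠ 0 ∧ (In c (b (n + 1) / b n) ∨
        In (starRingEnd ℂ c) (b (n + 1) / b n)) := by
      intro n
      induction n using Nat.strong_induction_on with
      | _ n ih =>
        intro hn
        rcases Nat.lt_or_ge n 2 with h | h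
        · have : n = 1 := by omega
          subst this
          have e := he 1 le_rfl
          rw [h1, mul_one, mul_one] at e
          refine ⟨by rw [h1]; exact one_ne_zero, Or.inr ?_⟩
          show In (starRingEnd ℂ c) (b 2 / b 1)
          rw [e, h1, div_one]; exact hct
        · rcases Nat.even_or_odd' n with ⟨m, hm | hm⟩
          · obtain ⟨hb, hq⟩ := ih m (by omega) (by omega)
            have e1 := he m (by omega)
            have e2 := ho m (by omega)
            refine ⟨by rw [hm, e1]; exact mul_ne_zero ht0 hb, Or.inl ?_⟩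
            rw [hm, e1, e2]
            have : (b m + b (m + 1)) / (t * b m) = (1 + b (m + 1) / b m) / t := by
              field_simp
            rw [this]
            exact hstep _ hq
          · obtain ⟨hb, hq⟩ := ih m (by omega) (by omega)
            have e1 := he (m + 1) (by omega)
            have e2 := ho m (by omega)
            set q := b (m + 1) / b m with hqd
            have hbm : b (m + 1) = q * b m := by rw [hqd]; field_simp
            have hq0 : q ≠ 0 := by
              rcases hq with hq | hq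
              · exact in_ne_zero hq
              · exact in_ne_zero hq
            have h1q : 1 + q ≠ 0 := by
              rcases hq with hq | hq
              · exact in_ne_neg_one hc0 hq
              · exact in_ne_neg_one hc0' hq
            have hne : b n ≠ 0 := by
              rw [hm, e2, hbm]
              have : b m + q * b m = (1 + q) * b m := by ring
              rw [this]; exact mul_ne_zero h1q hb
            refine ⟨hne, Or.inr ?_⟩
            have hn1 : b (n + 1) = t * (q * b m) := by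
              rw [hm, show 2 * m + 1 + 1 = 2 * (m + 1) by ring, e1, hbm]
            have hn2 : b n = (1 + q) * b m := by rw [hm, e2, hbm]; ring
            have e3 : b (n + 1) / b n = ((1 + q⁻¹) / t)⁻¹ := by
              rw [hn1, hn2]
              have h2q : 1 + q⁻¹ = (1 + q) / q := by
                field_simp
                ring
              rw [h2q, inv_div, div_div_eq_mul_div]
              have : t * (q * b m) / ((1 + q) * b m) = t * q / (1 + q) := by
                rw [← mul_assoc]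
                exact mul_div_mul_right _ _ hb
              rw [this]
            rw [e3]
            apply in_inv
            apply hstep
            rcases hq with hq | hq
            · exact Or.inr (in_inv hq)
            · have := in_inv hq
              rw [Complex.conj_conj] at this
              exact Or.inl this
    exact fun n hn => (key n hn).1

end Pool.Agent.R487.Stern
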